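import Pool.Agent.helper11.OFP.Spec

/-! Row ofp:BEQ: equivariance of the sets `Big`. -/

set_option autoImplicit false

open MeasureTheory

namespace Pool.Agent.OFP

open Pool.Agent.LOF MeasureTheory

theorem BEQ (hSND : SND_stmt) (hCVC : CVC_stmt) : BEQ_stmt := by
  have key : ∀ (m : ℕ) (g : F) (k j k' j' : ℕ), Sends g k j k' j' →
      ∀ r : LO F, r ∈ Big m k j → conj g r ∈ Big m k' j' := by
    intro m g k j k' j' hs r hr
    obtain ⟨h, hh, hfin, hcard, p, hp, q, hq, hpq, hp1, hq1⟩ := hr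
    have hFH := (hCVC r g).2 h
    have hinj : Function.Injective g.1 := g.1.injective
    refine ⟨g * h * g⁻¹, ?_, ?_, ?_, g.1 p, ?_, g.1 q, ?_, g.1.lt_iff_lt.2 hpq, ?_, ?_⟩
    · intro h1
      apply hh
      have h2 : h = g⁻¹ * (g * h * g⁻¹) * g := by group
      rw [h2, h1]
      group
    · rw [hFH]
      exact hfin.image _
    · rw [hFH, Set.ncard_image_of_injective _ hinj]
      exact hcard
    · rw [hFH]
      exact ⟨p, hp, rfl⟩
    · rw [hFH]
      exact ⟨q, hq, rfl⟩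
    · exact (hSND.2.2.2.1 g k j k' j' hs p).1 hp1
    · exact (hSND.2.2.2.1 g k j k' j' hs q).1 hq1
  intro m g k j k' j' hs r
  refine ⟨key m g k j k' j' hs r, fun h => ?_⟩
  have h1 := key m g⁻¹ k' j' k j (hSND.2.1 g k j k' j' hs) _ h
  have h2 : conj g⁻¹ (conj g r) = r := by
    apply Subtype.ext
    funext p
    change r.1 (p.1 * g⁻¹ * g, p.2 * g⁻¹ * g) = r.1 p
    rw [inv_mul_cancel_right, inv_mul_cancel_right]
  rwa [h2] at h1

end Pool.Agent.OFP
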