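import Pool.Agent.helper11.OFP.Spec

/-! Row ofp:CHN: convex subgroups form a chain. -/

set_option autoImplicit false

open MeasureTheory

namespace Pool.Agent.OFP

open Pool.Agent.LOF MeasureTheory

private theorem CHN_pos (r : LO F) (C D : Subgroup F) (h : ¬ C ≤ D) :
    ∃ c ∈ C, c ∉ D ∧ r.1 (1, c) = true := by
  obtain ⟨c, hc, hcD⟩ := SetLike.not_le_iff_exists.1 h
  have hne : (1 : F) ≠ c := fun h1 => hcD (h1 ▸ D.one_mem)
  rcases r.2.2.2.1 1 c hne with h1 | h1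
  · exact ⟨c, hc, hcD, h1⟩
  · refine ⟨c⁻¹, C.inv_mem hc, fun h2 => hcD ?_, ?_⟩
    · have := D.inv_mem h2
      rwa [inv_inv] at this
    · have h2 := r.2.2.2.2 c⁻¹ _ _ h1
      rwa [inv_mul_cancel, mul_one] at h2

theorem CHN : CHN_stmt := by
  intro r C D hC hD
  by_contra h
  rw [not_or] at h
  obtain ⟨c, hc, hcD, h1⟩ := CHN_pos r C D h.1
  obtain ⟨d, hd, hdC, h2⟩ := CHN_pos r D C h.2
  have hne : c ≠ d := fun h3 => hcD (h3 ▸ hd)
  rcases r.2.2.2.1 c d hne with h3 | h3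
  · exact hcD (hD 1 D.one_mem d hd c h1 h3)
  · exact hdC (hC 1 C.one_mem c hc d h2 h3)

end Pool.Agent.OFP
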