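import Pool.Agent.helper11.OFP.Spec

/-! Row ofp:CVC: convex subgroups of the conjugate order. -/

set_option autoImplicit false

open MeasureTheory

namespace Pool.Agent.OFP

open Pool.Agent.LOF MeasureTheory

private theorem CVC_mem (g x : F) (C : Subgroup F) :
    x ∈ C.map (MulAut.conj g).toMonoidHom ↔ g⁻¹ * x * g ∈ C := by
  rw [Subgroup.mem_map]
  constructor
  · rintro ⟨c, hc, rfl⟩
    have : g⁻¹ * ((MulAut.conj g).toMonoidHom c) * g = c := by
      change g⁻¹ * (g * c * g⁻¹) * g = c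
      group
    rw [this]
    exact hc
  · intro h
    refine ⟨_, h, ?_⟩
    change g * (g⁻¹ * x * g) * g⁻¹ = x
    group

private theorem CVC_ord (r : LO F) (g a b : F) :
    (conj g r).1 (a, b) = true ↔ r.1 (g⁻¹ * a * g, g⁻¹ * b * g) = true := by
  change r.1 (a * g, b * g) = true ↔ _
  constructor
  · intro h
    have := r.2.2.2.2 g⁻¹ _ _ h
    rwa [← mul_assoc, ← mul_assoc] at this
  · intro h
    have := r.2.2.2.2 g _ _ h
    have e : ∀ c : F, g * (g⁻¹ * c * g) = c * g := fun c => by group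
    rwa [e, e] at this

private theorem CVC_cvx (r : LO F) (g : F) (C : Subgroup F) :
    Cvx (conj g r) (C.map (MulAut.conj g).toMonoidHom) ↔ Cvx r C := by
  constructor
  · intro h a ha b hb c h1 h2
    have e : ∀ x : F, g⁻¹ * (g * x * g⁻¹) * g = x := fun x => by group
    have h3 := h (g * a * g⁻¹) ((CVC_mem g _ C).2 (by rw [e]; exact ha)) (g * b * g⁻¹)
      ((CVC_mem g _ C).2 (by rw [e]; exact hb)) (g * c * g⁻¹)
      ((CVC_ord r g _ _).2 (by rw [e, e]; exact h1)) ((CVC_ord r g _ _).2 (by rw [e, e]; exact h2))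
    rw [CVC_mem, e] at h3
    exact h3
  · intro h a ha b hb c h1 h2
    rw [CVC_mem] at ha hb ⊢
    rw [CVC_ord] at h1 h2
    exact h _ ha _ hb _ h1 h2

private theorem CVC_io (g : F) {t : ℝ} (h0 : 0 < t) (h1 : t < 1) : 0 < g.1 t ∧ g.1 t < 1 := by
  have e0 : g.1 0 = 0 := F.out g.2 (fun h => lt_irrefl _ h.1)
  have e1 : g.1 1 = 1 := F.out g.2 (fun h => lt_irrefl _ h.2)
  constructor
  · have := g.1.lt_iff_lt.2 h0
    rwa [e0] at this
  · have := g.1.lt_iff_lt.2 h1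
    rwa [e1] at this

private theorem CVC_inv (g : F) (t : ℝ) : (g⁻¹ : F).1 (g.1 t) = t :=
  g.1.symm_apply_apply t

private theorem CVC_inv2 (g : F) (t : ℝ) : g.1 ((g⁻¹ : F).1 t) = t :=
  g.1.apply_symm_apply t

private theorem CVC_mul (g h : F) (t : ℝ) : (g * h : F).1 t = g.1 (h.1 t) := rfl

private theorem CVC_fix (g : F) (C : Subgroup F) :
    Fixp ((C.map (MulAut.conj g).toMonoidHom : Subgroup F) : Set F) = g.1 '' Fixp (C : Set F) := by
  ext t
  constructor
  · rintro ⟨h0, h1, h2⟩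
    refine ⟨(g⁻¹ : F).1 t, ⟨(CVC_io _ h0 h1).1, (CVC_io _ h0 h1).2, fun c hc => ?_⟩, CVC_inv2 g t⟩
    have e : g⁻¹ * (g * c * g⁻¹) * g = c := by group
    have h3 := h2 (g * c * g⁻¹) ((CVC_mem g _ C).2 (by rw [e]; exact hc))
    rw [CVC_mul, CVC_mul] at h3
    have h4 := congrArg (g⁻¹ : F).1 h3
    rwa [CVC_inv] at h4
  · rintro ⟨s, ⟨h0, h1, h2⟩, rfl⟩
    refine ⟨(CVC_io _ h0 h1).1, (CVC_io _ h0 h1).2, fun x hx => ?_⟩
    have h3 := h2 _ ((CVC_mem g x C).1 hx)
    rw [CVC_mul, CVC_mul] at h3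
    have h4 := congrArg g.1 h3
    rwa [CVC_inv2] at h4

private theorem CVC_hc (r : LO F) (g h : F) :
    Hc (conj g r) (g * h * g⁻¹) = (Hc r h).map (MulAut.conj g).toMonoidHom := by
  apply le_antisymm
  · refine sInf_le ⟨(CVC_cvx r g _).2 ?_, ?_⟩
    · intro a ha b hb c h1 h2
      rw [Hc, Subgroup.mem_sInf] at ha hb ⊢
      intro C hC
      exact hC.1 a (ha C hC) b (hb C hC) c h1 h2
    · rw [CVC_mem]
      have e : g⁻¹ * (g * h * g⁻¹) * g = h := by group
      rw [e, Hc, Subgroup.mem_sInf]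
      exact fun C hC => hC.2
  · refine le_sInf fun C' hC' => ?_
    have e : (C'.comap (MulAut.conj g).toMonoidHom).map (MulAut.conj g).toMonoidHom = C' := by
      ext x
      rw [CVC_mem, Subgroup.mem_comap]
      change g * (g⁻¹ * x * g) * g⁻¹ ∈ C' ↔ x ∈ C'
      have e1 : g * (g⁻¹ * x * g) * g⁻¹ = x := by group
      rw [e1]
    rw [← e]
    refine Subgroup.map_mono (sInf_le ⟨(CVC_cvx r g _).1 (by rw [e]; exact hC'.1), ?_⟩)
    rw [Subgroup.mem_comap]
    exact hC'.2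

theorem CVC : CVC_stmt := by
  intro r g
  refine ⟨fun C => ⟨CVC_cvx r g C, CVC_fix g C⟩, fun h => ?_⟩
  rw [FH, CVC_hc]
  exact CVC_fix g _

end Pool.Agent.OFP
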